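import Mathlib
import Pool.Agent.N119.PS.Stm

/-!
# Project PSC (helper119), leaf POS: positivity of the critical exponent (helper271)
-/

set_option autoImplicit false

namespace Pool.Agent.N271.PSC.POS

open Pool.Agent.H472R3 Pool.Agent.H67R3.FSR Pool.Agent.H67R4.SR Pool.Agent.N119.PS

variable {N : ℕ}

/-- linear upper bound for displacements -/
lemma key (A : FTree N) (x : A.T) (l : List (Lt N)) :
    (lenFn A x).L (FreeGroup.mk l) ≤ (∑ a : Lt N, (lenFn A x).L (lt a)) * l.length := by
  set C := ∑ a : Lt N, (lenFn A x).L (lt a) with hC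
  induction l with
  | nil =>
    have : (FreeGroup.mk [] : FreeGroup (Fin N)) = 1 := rfl
    rw [this, (lenFn A x).one]
    simp
  | cons a l ih =>
    rw [mk_cons]
    have h1 := tri (lenFn A x) (lt a) (FreeGroup.mk l)
    have h2 : (lenFn A x).L (lt a) ≤ C := Finset.single_le_sum
      (f := fun a => (lenFn A x).L (lt a)) (fun a _ => L_nonneg _ _) (Finset.mem_univ a)
    rw [List.length_cons]
    push_cast
    linarith

/-- the two letters -/
def cc (hN : 2 ≤ N) (b : Bool) : Lt N := (if b then ⟨0, by omega⟩ else ⟨1, by omega⟩, true)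

lemma cc_inj (hN : 2 ≤ N) : Function.Injective (cc hN) := by
  intro a b h
  cases a <;> cases b <;> simp [cc] at h ⊢

/-- positive words -/
def wd (hN : 2 ≤ N) (q : Σ n : ℕ, (Fin n → Bool)) : FreeGroup (Fin N) :=
  FreeGroup.mk ((List.ofFn q.2).map (cc hN))

lemma wd_red (hN : 2 ≤ N) (l : List Bool) : FreeGroup.IsReduced (l.map (cc hN)) := by
  unfold FreeGroup.IsReduced
  rw [List.isChain_map]
  induction l with
  | nil => exact List.isChain_nil
  | cons a l ih =>
    cases l with
    | nil => exact List.isChain_singleton a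
    | cons b l => exact List.isChain_cons_cons.2 ⟨fun _ => rfl, ih⟩

lemma wd_inj (hN : 2 ≤ N) : Function.Injective (wd hN) := by
  rintro ⟨n, v⟩ ⟨m, w⟩ h
  have h1 := congrArg FreeGroup.toWord h
  unfold wd at h1
  rw [toWord_mk_red (wd_red hN _), toWord_mk_red (wd_red hN _)] at h1
  have h2 := List.map_injective_iff.2 (cc_inj hN) h1
  exact List.ofFn_inj'.1 h2

lemma not_summable : ¬ Summable fun q : Σ n : ℕ, (Fin n → Bool) => ((1 : ℝ) / 2) ^ q.1 := by
  intro h
  have h1 := h.sigma
  have h2 : (fun n : ℕ => ∑' v : Fin n → Bool, ((1 : ℝ) / 2) ^ n) = fun _ => 1 := by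
    funext n
    rw [tsum_fintype, Finset.sum_const, Finset.card_univ, Fintype.card_pi]
    simp
  have h3 : Summable (fun _ : ℕ => (1 : ℝ)) := by
    rw [← h2]
    exact h1
  have h4 := h3.tendsto_atTop_zero
  have h5 := tendsto_nhds_unique h4 tendsto_const_nhds
  norm_num at h5

theorem t (h : S_FIN) : S_POS := by
  intro N hN A hA
  obtain ⟨x⟩ := A.isRTree.nonempty
  obtain ⟨C, hC⟩ : ∃ C, C = ∑ a : Lt N, (lenFn A x).L (lt a) := ⟨_, rfl⟩
  have hC0 : 0 ≤ C := by
    rw [hC]
    exact Finset.sum_nonneg fun a _ => L_nonneg _ _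
  have hδ : 0 < Real.log 2 / (C + 1) := div_pos (Real.log_pos (by norm_num)) (by linarith)
  refine lt_of_lt_of_le hδ (le_csInf (h N A hA).1 ?_)
  rintro s ⟨hs0, hs⟩
  by_contra hlt
  push Not at hlt
  apply not_summable
  have h1 := (hs x).comp_injective (wd_inj hN)
  refine Summable.of_nonneg_of_le (fun q => by positivity) (fun q => ?_) h1
  show ((1 : ℝ) / 2) ^ q.1 ≤ Real.exp (-s * dist x (wd hN q • x))
  have h2 := key A x ((List.ofFn q.2).map (cc hN))
  rw [← hC, lenFn_L, List.length_map, List.length_ofFn] at h2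
  change dist x (wd hN q • x) ≤ C * q.1 at h2
  have h3 : s * (C + 1) ≤ Real.log 2 := by
    rw [lt_div_iff₀ (by linarith)] at hlt
    exact hlt.le
  have h4 : s * dist x (wd hN q • x) ≤ q.1 * Real.log 2 := by
    have hq : (0 : ℝ) ≤ q.1 := Nat.cast_nonneg _
    calc s * dist x (wd hN q • x) ≤ s * (C * q.1) := mul_le_mul_of_nonneg_left h2 hs0
      _ ≤ s * ((C + 1) * q.1) := by
        apply mul_le_mul_of_nonneg_left _ hs0
        apply mul_le_mul_of_nonneg_right _ hq
        linarith
      _ = (s * (C + 1)) * q.1 := by ring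
      _ ≤ Real.log 2 * q.1 := mul_le_mul_of_nonneg_right h3 hq
      _ = q.1 * Real.log 2 := mul_comm _ _
  calc ((1 : ℝ) / 2) ^ q.1 = Real.exp (-(q.1 * Real.log 2)) := by
        rw [Real.exp_neg, Real.exp_nat_mul, Real.exp_log (by norm_num), one_div, inv_pow]
    _ ≤ Real.exp (-s * dist x (wd hN q • x)) := by
        apply Real.exp_le_exp.2
        linarith

end Pool.Agent.N271.PSC.POS
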